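import Pool.Agent.Y402.PL.Stm3

/-!
# Project PL (helper402): the staircase bound with an error term

Adapted from helper409's proof of the staircase bound.
-/

set_option autoImplicit false

namespace Pool.Agent.Y177.PL

open Pointwise Finset Pool.Agent.Y402.PL

lemma mem_bx {n m : ℕ} {p : ℕ × ℕ} : p ∈ Pool.Agent.Y402.PL.box n m ↔ p.1 ≤ n ∧ p.2 ≤ m := by
  simp only [Pool.Agent.Y402.PL.box, mem_product, mem_range]
  omega

theorem stc2_aux (N0 n M : ℕ) (C W : Finset (ℕ × ℕ)) (β : ℝ) (hβ : 0 ≤ β)
    (hC : ∀ a b : ℕ, N0 ≤ a → a ≤ n → N0 ≤ b → b ≤ M →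
      β * (((a : ℝ) + 1) * ((b : ℝ) + 1)) ≤ ((C ∩ Pool.Agent.Y402.PL.box a b).card : ℝ)) (m : ℕ) :
    m ≤ M → ∀ x0 : ℕ, x0 ≤ n + 1 → (∀ w ∈ W, w.1 ≤ n → w.2 ≤ m → x0 ≤ w.1) →
      β * (((Pool.Agent.Y402.PL.box n m).filter
        (fun p => ∃ w ∈ W, w.1 ≤ p.1 ∧ w.2 ≤ p.2)).card : ℝ)
        ≤ (((W + C) ∩ Pool.Agent.Y402.PL.box n m).card : ℝ) +
          β * ((N0 : ℝ) * (((n : ℝ) + 1 - x0) + ((m : ℝ) + 1))) := by
  classical
  induction m using Nat.strong_induction_on with
  | _ m ih =>
    intro hm x0 hx0 hWx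
    have hx0r : (x0 : ℝ) ≤ (n : ℝ) + 1 := by exact_mod_cast hx0
    have hN0 : (0 : ℝ) ≤ N0 := Nat.cast_nonneg _
    set U := (Pool.Agent.Y402.PL.box n m).filter (fun p => ∃ w ∈ W, w.1 ≤ p.1 ∧ w.2 ≤ p.2) with hU
    have hmemU : ∀ p, p ∈ U ↔ (p.1 ≤ n ∧ p.2 ≤ m) ∧ ∃ w ∈ W, w.1 ≤ p.1 ∧ w.2 ≤ p.2 := by
      intro p
      rw [hU, mem_filter, mem_bx]
    set Z := W.filter (fun w => w.1 ≤ n ∧ w.2 + N0 ≤ m) with hZ
    set S := (W + C) ∩ Pool.Agent.Y402.PL.box n m with hS
    have hS0 : (0 : ℝ) ≤ (S.card : ℝ) := Nat.cast_nonneg _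
    have hcx : (((n + 1 - x0 : ℕ) : ℕ) : ℝ) = (n : ℝ) + 1 - x0 := by
      rw [Nat.cast_sub hx0]
      push_cast
      ring
    rcases Finset.eq_empty_or_nonempty Z with he | hne
    · have h1 : U ⊆ Icc x0 n ×ˢ Icc (m + 1 - N0) m := by
        intro p hp
        obtain ⟨⟨h1, h2⟩, w, hw, h3, h4⟩ := (hmemU p).1 hp
        have h5 : w ∉ Z := by rw [he]; exact notMem_empty _
        rw [hZ, mem_filter] at h5
        have h6 : ¬ (w.2 + N0 ≤ m) := fun h => h5 ⟨hw, by omega, h⟩
        have h7 := hWx w hw (by omega) (by omega)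
        rw [mem_product, mem_Icc, mem_Icc]
        omega
      have h2 := card_le_card h1
      rw [card_product, Nat.card_Icc, Nat.card_Icc] at h2
      have h3 : U.card ≤ (n + 1 - x0) * N0 :=
        h2.trans (Nat.mul_le_mul_left _ (by omega))
      have h4 : (U.card : ℝ) ≤ ((n : ℝ) + 1 - x0) * N0 := by
        rw [← hcx]
        exact_mod_cast h3
      have h5 := mul_le_mul_of_nonneg_left h4 hβ
      have h6 : 0 ≤ β * (N0 * ((m : ℝ) + 1)) := by positivity
      nlinarith
    · obtain ⟨z, hz, hzmin⟩ := exists_min_image Z (fun w => w.1) hne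
      have hz' := hz
      rw [hZ, mem_filter] at hz'
      obtain ⟨hzW, hz1, hz2⟩ := hz'
      have hxz : x0 ≤ z.1 := hWx z hzW hz1 (by omega)
      have hxzr : (x0 : ℝ) ≤ z.1 := by exact_mod_cast hxz
      have hz1r : (z.1 : ℝ) ≤ n := by exact_mod_cast hz1
      have hz2r : (z.2 : ℝ) ≤ m := by exact_mod_cast (show z.2 ≤ m by omega)
      rcases Nat.lt_or_ge (n - z.1) N0 with hb | hb
      · have h1 : U ⊆ (Icc z.1 n ×ˢ Icc 0 m) ∪ (Icc x0 n ×ˢ Icc (m + 1 - N0) m) := by
          intro p hp
          obtain ⟨⟨h1, h2⟩, w, hw, h3, h4⟩ := (hmemU p).1 hp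
          have h7 := hWx w hw (by omega) (by omega)
          rw [mem_union, mem_product, mem_product, mem_Icc, mem_Icc, mem_Icc, mem_Icc]
          rcases Nat.lt_or_ge m (p.2 + N0) with h | h
          · right
            omega
          · left
            have h8 : w ∈ Z := by
              rw [hZ, mem_filter]
              exact ⟨hw, by omega, by omega⟩
            have h9 : z.1 ≤ w.1 := hzmin w h8
            omega
        have h2 := (card_le_card h1).trans (card_union_le _ _)
        rw [card_product, Nat.card_Icc, Nat.card_Icc, card_product, Nat.card_Icc,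
          Nat.card_Icc] at h2
        have h3 : U.card ≤ N0 * (m + 1) + (n + 1 - x0) * N0 :=
          h2.trans (Nat.add_le_add (Nat.mul_le_mul (by omega) (by omega))
            (Nat.mul_le_mul_left _ (by omega)))
        have h4 : (U.card : ℝ) ≤ N0 * ((m : ℝ) + 1) + ((n : ℝ) + 1 - x0) * N0 := by
          rw [← hcx]
          exact_mod_cast h3
        have h5 := mul_le_mul_of_nonneg_left h4 hβ
        nlinarith
      · have hUc := card_filter_add_card_filter_not (s := U) (fun p : ℕ × ℕ => z.2 ≤ p.2)
        have hSc := card_filter_add_card_filter_not (s := S) (fun p : ℕ × ℕ => z.2 ≤ p.2)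
        -- the upper part
        have hT : (U.filter (fun p => z.2 ≤ p.2)).card ≤
            (n - z.1 + 1) * (m - z.2 + 1) + (z.1 - x0) * N0 := by
          have h1 : U.filter (fun p => z.2 ≤ p.2) ⊆
              (Icc z.1 n ×ˢ Icc z.2 m) ∪ (Ico x0 z.1 ×ˢ Icc (m + 1 - N0) m) := by
            intro p hp
            rw [mem_filter, hmemU] at hp
            obtain ⟨⟨⟨h1, h2⟩, w, hw, h3, h4⟩, h5⟩ := hp
            rw [mem_union, mem_product, mem_product, mem_Icc, mem_Icc, mem_Ico, mem_Icc]
            rcases Nat.lt_or_ge p.1 z.1 with h | h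
            · right
              have h7 := hWx w hw (by omega) (by omega)
              have h8 : ¬ (w.2 + N0 ≤ m) := by
                intro h9
                have h10 : w ∈ Z := by
                  rw [hZ, mem_filter]
                  exact ⟨hw, by omega, h9⟩
                have h11 : z.1 ≤ w.1 := hzmin w h10
                omega
              omega
            · left
              exact ⟨⟨h, h1⟩, h5, h2⟩
          have h2 := (card_le_card h1).trans (card_union_le _ _)
          rw [card_product, Nat.card_Icc, Nat.card_Icc, card_product, Nat.card_Ico,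
            Nat.card_Icc] at h2
          rw [show n - z.1 + 1 = n + 1 - z.1 by omega, show m - z.2 + 1 = m + 1 - z.2 by omega]
          exact h2.trans (Nat.add_le_add_left (Nat.mul_le_mul_left _ (by omega)) _)
        have hST : (C ∩ Pool.Agent.Y402.PL.box (n - z.1) (m - z.2)).card ≤
            (S.filter (fun p => z.2 ≤ p.2)).card := by
          rw [← card_image_of_injective (C ∩ Pool.Agent.Y402.PL.box (n - z.1) (m - z.2))
            (fun x y (h : z + x = z + y) => add_left_cancel h : Function.Injective (z + ·))]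
          apply card_le_card
          intro p hp
          rw [mem_image] at hp
          obtain ⟨c, hc, rfl⟩ := hp
          rw [mem_inter, mem_bx] at hc
          rw [mem_filter, hS, mem_inter, mem_bx]
          simp only [Prod.fst_add, Prod.snd_add]
          exact ⟨⟨add_mem_add hzW hc.1, by omega, by omega⟩, by omega⟩
        have hup := hC (n - z.1) (m - z.2) hb (by omega) (by omega) (by omega)
        have hT' : ((U.filter (fun p => z.2 ≤ p.2)).card : ℝ) ≤
            (((n - z.1 : ℕ) : ℝ) + 1) * (((m - z.2 : ℕ) : ℝ) + 1) + ((z.1 : ℝ) - x0) * N0 := by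
          rw [show (z.1 : ℝ) - x0 = ((z.1 - x0 : ℕ) : ℝ) by rw [Nat.cast_sub hxz]]
          exact_mod_cast hT
        have hST' : ((C ∩ Pool.Agent.Y402.PL.box (n - z.1) (m - z.2)).card : ℝ) ≤
            ((S.filter (fun p => z.2 ≤ p.2)).card : ℝ) := by exact_mod_cast hST
        have hA := mul_le_mul_of_nonneg_left hT' hβ
        -- the lower part
        have hlow : β * ((U.filter (fun p => ¬ z.2 ≤ p.2)).card : ℝ) ≤
            ((S.filter (fun p => ¬ z.2 ≤ p.2)).card : ℝ) +
              β * ((N0 : ℝ) * (((n : ℝ) + 1 - z.1) + (z.2 : ℝ))) := by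
          rcases Nat.eq_zero_or_pos z.2 with h0 | h0
          · have : U.filter (fun p => ¬ z.2 ≤ p.2) = ∅ := by
              rw [filter_eq_empty_iff]
              intro p _ h
              apply h
              omega
            rw [this, card_empty, Nat.cast_zero, mul_zero]
            have h1 : (0 : ℝ) ≤ (n : ℝ) + 1 - z.1 := by linarith
            positivity
          · have hi := ih (z.2 - 1) (by omega) (by omega) z.1 (by omega) (by
              intro w hw h1 h2
              apply hzmin w
              rw [hZ, mem_filter]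
              exact ⟨hw, h1, by omega⟩)
            have h1 : U.filter (fun p => ¬ z.2 ≤ p.2) ⊆
                (Pool.Agent.Y402.PL.box n (z.2 - 1)).filter
                  (fun p => ∃ w ∈ W, w.1 ≤ p.1 ∧ w.2 ≤ p.2) := by
              intro p hp
              rw [mem_filter, hmemU] at hp
              rw [mem_filter, mem_bx]
              exact ⟨⟨hp.1.1.1, by omega⟩, hp.1.2⟩
            have h2 : (W + C) ∩ Pool.Agent.Y402.PL.box n (z.2 - 1) ⊆
                S.filter (fun p => ¬ z.2 ≤ p.2) := by
              intro p hp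
              rw [mem_inter, mem_bx] at hp
              rw [mem_filter, hS, mem_inter, mem_bx]
              exact ⟨⟨hp.1, hp.2.1, by omega⟩, by omega⟩
            have h1' : ((U.filter (fun p => ¬ z.2 ≤ p.2)).card : ℝ) ≤
                (((Pool.Agent.Y402.PL.box n (z.2 - 1)).filter
                  (fun p => ∃ w ∈ W, w.1 ≤ p.1 ∧ w.2 ≤ p.2)).card : ℝ) := by
              exact_mod_cast card_le_card h1
            have h2' : (((W + C) ∩ Pool.Agent.Y402.PL.box n (z.2 - 1)).card : ℝ) ≤
                ((S.filter (fun p => ¬ z.2 ≤ p.2)).card : ℝ) := by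
              exact_mod_cast card_le_card h2
            have h3 := mul_le_mul_of_nonneg_left h1' hβ
            have h4 : ((z.2 - 1 : ℕ) : ℝ) + 1 = (z.2 : ℝ) := by
              rw [Nat.cast_sub (by omega)]
              push_cast
              ring
            rw [h4] at hi
            linarith
        have hUc' : ((U.filter (fun p => z.2 ≤ p.2)).card : ℝ) +
            ((U.filter (fun p => ¬ z.2 ≤ p.2)).card : ℝ) = (U.card : ℝ) := by exact_mod_cast hUc
        have hSc' : ((S.filter (fun p => z.2 ≤ p.2)).card : ℝ) +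
            ((S.filter (fun p => ¬ z.2 ≤ p.2)).card : ℝ) = (S.card : ℝ) := by exact_mod_cast hSc
        rw [← hUc', ← hSc', mul_add]
        have hfin : β * (((z.1 : ℝ) - x0) * N0) + β * ((N0 : ℝ) * (((n : ℝ) + 1 - z.1) + (z.2 : ℝ))) ≤
            β * ((N0 : ℝ) * (((n : ℝ) + 1 - x0) + ((m : ℝ) + 1))) := by
          rw [← mul_add]
          apply mul_le_mul_of_nonneg_left _ hβ
          have h1 : (z.2 : ℝ) ≤ (m : ℝ) + 1 := by linarith
          nlinarith
        rw [mul_add β] at hA
        linarith

theorem mainSTC2 : S_STC2 := by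
  intro N0 n m C W β hβ hC
  have h := stc2_aux N0 n m C W β hβ hC m le_rfl 0 (Nat.zero_le _) (fun _ _ _ _ => Nat.zero_le _)
  rw [Nat.cast_zero, sub_zero] at h
  convert h

end Pool.Agent.Y177.PL
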